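import Mathlib
import Pool.Agent.helper35.DR.DefsX

/-!
# Dade's invariant conjecture without chains: definitions

`Irr`, `IrrOn`, `Defect`, `Induces`, `PosDefect`, `IsOp`, `nrm`, `IsRadical`, `funMap`, `Extension`, `stab`,
`altSum`, `chainRel` are those of `helper58/DC/Defs.lean`.
-/

set_option autoImplicit false

namespace Pool.Agent.WC

open Pool.Agent.helper58.DC Pool.Agent.DI Pool.Agent.DR

open Classical in
/-- `μ(L, E)`: the Möbius function of the lattice of subgroups of the finite group `E`, defined by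
`μ(E, E) = 1` and `∑ μ(K, E) = 0`, the sum over all `K ≥ L`, for `L ≠ E`. -/
noncomputable def mob {E : Type} [Group E] [Finite E] (L : Subgroup E) : ℤ :=
  if L = ⊤ then 1 else - ∑ᶠ K : {K : Subgroup E // L < K}, mob K.1
termination_by L.index
decreasing_by
  obtain ⟨K, hK⟩ := K
  exact Subgroup.index_strictAnti hK

section

variable {G E A : Type} [Group G] [Group E] [Group A]

/-- The number of the irreducible characters `η` of `L ∩ G` of defect `d` which are invariant under `L` and have the
property `R`. -/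
noncomputable def cnt (X : Extension G E A) (p : ℕ) (R : (G → ℂ) → Prop) (d : ℤ) (L : Subgroup E) : ℕ :=
  Nat.card {η : G → ℂ // η ∈ IrrOn (L.comap X.inc) ∧ Defect p (L.comap X.inc) η d ∧ R η ∧
    ∀ e ∈ L, funMap (X.act e) η = η}

/-- `∑ μ(L, E) |L ∩ G| k(L)`, the sum over all supplements `L` of `G` in `E`, where `k(L)` is the number of the
`L`-invariant `η ∈ Irr(L ∩ G)` with `d(η) = d` and the property `R`. -/
noncomputable def jSum (X : Extension G E A) [Finite E] (p : ℕ) (R : (G → ℂ) → Prop) (d : ℤ) : ℤ :=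
  ∑ᶠ L ∈ {L : Subgroup E | L ⊔ X.inc.range = ⊤},
    mob L * ((Nat.card (L.comap X.inc) : ℤ) * cnt X p R d L)

/-- The number of the `ψ ∈ Irr(N_G(C))` of defect `d` with the property `R` such that `N_E(C, ψ)` covers `E / G`. -/
noncomputable def kR (X : Extension G E A) (p : ℕ) (R : (G → ℂ) → Prop) (d : ℤ)
    (C : Finset (Subgroup G)) : ℕ :=
  Nat.card {ψ : G → ℂ // ψ ∈ IrrOn (nrm C) ∧ Defect p (nrm C) ψ d ∧ R ψ ∧
    (X.stab C ψ).map X.proj = ⊤}

/-- The alternating sum over all radical chains, weighted by the orders of the normalisers. -/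
noncomputable def radS (X : Extension G E A) (p : ℕ) (R : (G → ℂ) → Prop) (d : ℤ) : ℤ :=
  ∑ᶠ C ∈ {C : Finset (Subgroup G) | IsRadical p C},
    (-1) ^ (C.card + 1) * ((Nat.card (nrm C) : ℤ) * kR X p R d C)

/-- The alternating sums of the conjecture for `U = E / G`, all blocks together: the sum of `(-1)^|C|` times the
number of the `ψ ∈ Irr(N_G(C))` of defect `d` such that `N_E(C, ψ)` covers `E / G`, over one radical chain `C` of each
conjugacy class. -/
noncomputable def altT (X : Extension G E A) (p : ℕ) (d : ℤ) : ℤ :=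
  ∑ᶠ c : Quot (chainRel (G := G) p),
    (-1) ^ (c.out.1.card - 1) * (kR X p (fun _ => True) d c.out.1 : ℤ)

/-! ### surfaces -/

/-- The product of the commutators `[x i, y i]`. -/
def cprod (X : Extension G E A) {n : ℕ} (x : Fin n → E) (y : Fin n → G) : E :=
  (List.ofFn fun i => x i * X.inc (y i) * (x i)⁻¹ * (X.inc (y i))⁻¹).prod

/-- The number of the homomorphisms `f` of the fundamental group of the closed orientable surface of genus `n` (generators
`x i`, `y i`, one relation `∏ [x i, y i] = 1`) to the subgroup `L` of `E` with `f (x i)` in the coset `a i` of `G` and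
`f (y i)` in `G`. -/
noncomputable def homL (X : Extension G E A) {n : ℕ} (a : Fin n → A) (L : Subgroup E) : ℕ :=
  Nat.card {z : (Fin n → E) × (Fin n → G) // (∀ i, X.proj (z.1 i) = a i) ∧ cprod X z.1 z.2 = 1 ∧
    (∀ i, z.1 i ∈ L) ∧ ∀ i, X.inc (z.2 i) ∈ L}

/-- The number of the surjective homomorphisms `f` of the fundamental group of the closed orientable surface of genus `n`
(generators `x i`, `y i`, one relation `∏ [x i, y i] = 1`) to `E` with `f (x i)` in the coset `a i` of `G` and `f (y i)` in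
`G`. -/
noncomputable def epi (X : Extension G E A) {n : ℕ} (a : Fin n → A) : ℕ :=
  Nat.card {z : (Fin n → E) × (Fin n → G) // (∀ i, X.proj (z.1 i) = a i) ∧ cprod X z.1 z.2 = 1 ∧
    Subgroup.closure (Set.range z.1 ∪ Set.range fun i => X.inc (z.2 i)) = ⊤}

/-- `m_c = ∑ μ(L, E) |L ∩ G| k_c(L)`, the sum over all supplements `L` of `G` in `E`, where `k_c(L)` is the number of the
`L`-invariant `η ∈ Irr(L ∩ G)` with `|L ∩ G| / η(1) = c`. -/
noncomputable def mc (X : Extension G E A) [Finite E] (c : ℕ) : ℤ :=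
  ∑ᶠ L ∈ {L : Subgroup E | L ⊔ X.inc.range = ⊤}, mob L * ((Nat.card (L.comap X.inc) : ℤ) *
    Nat.card {η : G → ℂ // η ∈ IrrOn (L.comap X.inc) ∧ (c : ℂ) * η 1 = Nat.card (L.comap X.inc) ∧
      ∀ e ∈ L, funMap (X.act e) η = η})

end

/-- The class `𝒳` is closed under subgroups. -/
def SubX (𝒳 : (E : Type) → [Group E] → Prop) : Prop :=
  ∀ (E F : Type) [Group E] [Group F] (f : F →* E), Function.Injective f → 𝒳 E → 𝒳 F

/-- The invariant conjecture (Q1) for all extensions `1 → G → E → A → 1` with `E` in the class `𝒳`. -/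
def QX (p : ℕ) (M : Ideal (integralClosure ℤ ℂ)) (𝒳 : (E : Type) → [Group E] → Prop) : Prop :=
  ∀ (G E A : Type) [Group G] [Group E] [Group A] [Finite G] [Finite E] (X : Extension G E A),
    𝒳 E → IsOp p (⊤ : Subgroup G) ⊥ → ∀ χ ∈ Irr G, PosDefect p M χ →
      ∀ (d : ℤ) (U : Subgroup A), altSum X p M χ d U = 0

end Pool.Agent.WC
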