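import Mathlib
import Pool.Agent.helper22.WC.Defs

/-!
# Project wc (MP_baa4d7_al): Dade's invariant conjecture without chains, and surface groups

THEOREM (FIN). Let `𝒳` be a class of groups closed under subgroups.
(1) Q1 holds for all `E ∈ 𝒳` iff for all `E ∈ 𝒳`, all normal `G` with `O_p(G) = 1`, all `E`-stable blocks `B` of `G` with
`D(B) ≠ 1` and all `d ≥ 1` the sum of `μ(L, E) |L ∩ G| k_d(L; B)` over the supplements `L` of `G` in `E` is `0`, where
`k_d(L; B)` is the number of the `L`-invariant `η ∈ Irr(L ∩ G)` with `d(η) = d`, `b(η)^G = B`.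
(2) For `a_1, ..., a_n` generating `E / G` the number of the surjections `f : π_1(Σ_n) → E` with `f(x_i) ∈ a_i G`,
`f(y_i) ∈ G` is `∑_c m_c c^(2n-2)`, `m_c` integers which do not depend on `n` and the `a_i`; the sums of Q1 over all blocks
vanish (`U = E / G`, all `d ≥ 1`, all `E ∈ 𝒳`) iff the sums of the `m_c` over the `c` with `v_p(c) = d` vanish.

Rules: prove `theorem XX : XX_stmt` (or `theorem XX (hYY : YY_stmt) ... : XX_stmt` with the hypotheses of the row)
in `Pool/Agent/<you>/WC/XX.lean`, importing `Pool.Agent.helper22.WC.Spec`, namespace `Pool.Agent.WC`,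
`open Pool.Agent.helper58.DC Pool.Agent.DI Pool.Agent.DR`, auxiliary lemmas prefixed `XX_`. All modules of DC, DI, DR are
proved; their statements (`A7_stmt`, `Pool.Agent.DI.B2_stmt`, ...) may be used as hypotheses too (the list goes into the DONE
note) or imported from `Pool/Agent/helper81/DI/Final.lean`, `Pool/Agent/helper35/DR/AllDI.lean`.
-/

set_option autoImplicit false

namespace Pool.Agent.WC

open Pool.Agent.helper58.DC Pool.Agent.DI Pool.Agent.DR

/-! ### Möbius inversion and chains -/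

/-- **MOB** (short to medium). Möbius inversion. Proof: by definition `∑_{K ≥ L} mob K` is `1` for `L = ⊤` and `0` otherwise
(`K ≥ L` iff `K = L` or `L < K`; unfold `mob` once: `rw [mob]`). First item: exchange the sums,
`∑_L mob L ∑_{K ≤ L} g K = ∑_K g K ∑_{L ≥ K} mob L = g ⊤`. Second item: define `g H = f H - ∑_{K < H} g K` by well founded
recursion (strong induction on `Nat.card H`, or `WellFounded.fix`). -/
def MOB_stmt : Prop :=
  ∀ (E : Type) [Group E] [Finite E],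
    (∀ g : Subgroup E → ℤ, ∑ᶠ L : Subgroup E, mob L * ∑ᶠ K ∈ {K : Subgroup E | K ≤ L}, g K = g ⊤) ∧
    (∀ f : Subgroup E → ℤ, ∃ g : Subgroup E → ℤ, ∀ H, f H = ∑ᶠ K ∈ {K : Subgroup E | K ≤ H}, g K)

/-- **CSE** (medium). Chains of `K`-invariant `p`-subgroups, `O_p(K ⊓ G) ≠ 1`. As A4 of di (`Pool/Agent/helper91/DI/A4.lean`): A1 of
di with `F = 1`: let `R` be the largest term of `C` which does not contain `Y` (`⊥` is such a term) and toggle `R ⊔ Y`. It is a
`p`-group, since `K ≤ nz R` and `Y ≤ K` normalises `R`; it is contained in `L` and normalised by `K`; the terms which contain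
`Y` are `≥ R`, so `≥ R ⊔ Y`. -/
def CSE_stmt : Prop :=
  ∀ (Γ : Type) [Group Γ] [Finite Γ] (p : ℕ) [Fact p.Prime] (L K Y : Subgroup Γ), IsPGroup p Y →
    Y ≤ K → Y ≤ L → K ≤ nz Y → Y ≠ ⊥ →
    ∑ᶠ C ∈ {C : Finset (Subgroup Γ) | PCh p L ⊥ C ∧ K ≤ nrm C}, (-1 : ℤ) ^ (C.card + 1) = 0

/-- **CSM** (medium; from CSE, A2 of di). The sum over chains of a Möbius transform. Proof: `K ≤ K₀ ⊓ nrm C` iff `K ≤ K₀` and
`K ≤ nrm C`; exchange the sums: `cSum` is the sum over the `K ≤ K₀` of `g K` times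
`e K = ∑_{C : PCh p (K₀ ⊓ G) ⊥ C, K ≤ nrm C} (-1) ^ (C.card + 1)`. Let `K < K₀` and `Y = O_p(K ⊓ G)` (A2). If `Y = ⊥`
then `g K = 0`; if `Y ≠ ⊥` then `e K = 0` by CSE (`L = K₀ ⊓ G`; `K` normalises `K ⊓ G`, hence `Y`: A2). `e K₀ = 1`: if
`K₀ ≤ nrm C` every term `P` of `C` is a `p`-subgroup of `K₀ ⊓ G` normalised by `K₀ ⊓ G`, so `P ≤ ⊥` by `IsOp p (K₀ ⊓ G) ⊥`,
and `C = {⊥}`. -/
def CSM_stmt : Prop :=
  ∀ (Γ : Type) [Group Γ] [Finite Γ] (p : ℕ) [Fact p.Prime] (G K₀ : Subgroup Γ), G.Normal →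
    IsOp p (K₀ ⊓ G) ⊥ → ∀ g : Subgroup Γ → ℤ,
    (∀ K, K ≤ K₀ → K ≠ K₀ → IsOp p (K ⊓ G) ⊥ → g K = 0) →
    cSum p (K₀ ⊓ G) ⊥ K₀ (fun H => ∑ᶠ K ∈ {K : Subgroup Γ | K ≤ H}, g K) = g K₀

/-! ### extensions inside extensions -/

/-- `Y` is a part of the extension `X` with the same quotient `A`. -/
structure Sub {K' E' G E A : Type} [Group K'] [Group E'] [Group G] [Group E] [Group A]
    (Y : Extension K' E' A) (X : Extension G E A) where
  /-- the embedding of the normal subgroup -/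
  j : K' →* G
  /-- the embedding of the group -/
  ε : E' →* E
  j_inj : Function.Injective j
  ε_inj : Function.Injective ε
  inc : ∀ k, ε (Y.inc k) = X.inc (j k)
  proj : ∀ e, X.proj (ε e) = Y.proj e

/-- **SBX** (short). (1) Every supplement `K` of `X.inc.range` gives a part: `K' = ↥(K.comap X.inc)`, `E' = ↥K`, the inclusions,
`Y.proj = X.proj.comp K.subtype` (surjective as `K ⊔ X.inc.range = ⊤`), `Y.act e` the restriction of `X.act e`
(`X.act_spec`). (2) `X.inc g = ε e` implies `Y.proj e = 1`, so `e = Y.inc k`, `g = j k`. (3) `X.act_spec`, `Y.act_spec`. -/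
def SBX_stmt : Prop :=
  ∀ (G E A : Type) [Group G] [Group E] [Group A] (X : Extension G E A),
    (∀ K : Subgroup E, K ⊔ X.inc.range = ⊤ →
      ∃ (Y : Extension ↥(K.comap X.inc) ↥K A) (σ : Sub Y X), σ.j = (K.comap X.inc).subtype ∧
        σ.ε = K.subtype) ∧
    (∃ σ : Sub X X, σ.j = MonoidHom.id G ∧ σ.ε = MonoidHom.id E) ∧
    ∀ (K' E' : Type) [Group K'] [Group E'] (Y : Extension K' E' A) (σ : Sub Y X),
      (∀ g, X.inc g ∈ σ.ε.range ↔ g ∈ σ.j.range) ∧
      (∀ L : Subgroup E', (L.map σ.ε).comap X.inc = (L.comap Y.inc).map σ.j) ∧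
      (∀ L : Subgroup E', L.map σ.ε ⊔ X.inc.range = ⊤ ↔ L ⊔ Y.inc.range = ⊤) ∧
      ∀ (e : E') (k : K'), σ.j (Y.act e k) = X.act (σ.ε e) (σ.j k)

/-- The function of the subgroups of `E` to which the Möbius inversion is applied. -/
noncomputable def fR {G E A : Type} [Group G] [Group E] [Group A] (X : Extension G E A) (p : ℕ)
    (R : (G → ℂ) → Prop) (d : ℤ) (L : Subgroup E) : ℤ :=
  open Classical in
  if L ⊔ X.inc.range = ⊤ then (Nat.card (L.comap X.inc) : ℤ) * cnt X p R d L else 0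

/-- **TRK** (medium; from SBX, B13 and B14 of di, IF of dq). As RCT of DR (`Pool/Agent/helper85/DR/RCT.lean`). Let
`i = X.inc.comp σ.j` and `N = σ.ε.range ⊓ nrm (cmap i C)`. `N.comap X.inc = (nrm C).map σ.j` (B14 for `i`: `m ∈ nrm (cmap i C)`
for `m = ε e` iff `chainMap (Y.act e) C = C`). The `η` counted by `cnt X p R d N` are the `ext0 σ.j θ`, `θ ∈ IrrOn (nrm C)`
(B13 for `σ.j`), with the same defects. `e ∈ E'` is in `Y.stab C θ` iff `ε e ∈ N` and `funMap (X.act (ε e)) (ext0 σ.j θ) =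
ext0 σ.j θ`. If `N ⊔ X.inc.range = ⊤`: `η` is `N`-invariant iff the image of `Y.stab C θ` in `A` is everything (`N` is the product
of `Y.stab C θ` and `N ∩ G = nrm C`, which fixes `θ`). If `N ⊔ X.inc.range ≠ ⊤` both sides are `0`. -/
def TRK_stmt : Prop :=
  ∀ (K' E' G E A : Type) [Group K'] [Group E'] [Group G] [Group E] [Group A] [Finite G] [Finite E]
    [Finite K'] [Finite E'] (Y : Extension K' E' A) (X : Extension G E A) (σ : Sub Y X) (p : ℕ) [Fact p.Prime]
    (R : (G → ℂ) → Prop) (d : ℤ) (C : Finset (Subgroup K')), IsChain (· ≤ ·) (C : Set (Subgroup K')) →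
    C.Nonempty →
    fR X p R d (σ.ε.range ⊓ nrm (cmap (X.inc.comp σ.j) C)) =
      (Nat.card (nrm C) : ℤ) * kR Y p (fun θ => R (ext0 σ.j θ)) d C

/-- **TRS** (short; from TRK, A7, A8, A14 of di). The chain sum of `fR`. `i = X.inc.comp σ.j` is injective with range
`σ.ε.range ⊓ X.inc.range` (SBX); `IsOp p (σ.ε.range ⊓ X.inc.range) ⊥` by A14; A7 with `M = σ.ε.range`, `P₀ = ⊥`
(`σ.ε.range` normalises `σ.ε.range ⊓ X.inc.range`, `nz ⊥ = ⊤`); A8; TRK (a radical chain is a nonempty chain). -/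
def TRS_stmt : Prop :=
  ∀ (K' E' G E A : Type) [Group K'] [Group E'] [Group G] [Group E] [Group A] [Finite G] [Finite E]
    [Finite K'] [Finite E'] (Y : Extension K' E' A) (X : Extension G E A) (σ : Sub Y X) (p : ℕ) [Fact p.Prime]
    (R : (G → ℂ) → Prop) (d : ℤ), IsOp p (⊤ : Subgroup K') ⊥ →
    cSum p (σ.ε.range ⊓ X.inc.range) ⊥ σ.ε.range (fR X p R d) = radS Y p (fun θ => R (ext0 σ.j θ)) d

/-- **KEY** (medium; from MOB, CSM, SBX, TRS, A14 of di). Let `f = fR X p R d` and `f H = ∑_{K ≤ H} g K` (MOB). Claim (a): if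
`K ⊔ X.inc.range ≠ ⊤` then `g K = 0`: induction on `|K|`, `0 = f K = g K + ∑_{L < K} g L` and the `L < K` have the same
property. Claim (b): if `K ≠ ⊤`, `K ⊔ X.inc.range = ⊤` and `IsOp p (K ⊓ X.inc.range) ⊥` then `g K = 0`: induction on `|K|`;
let `Y`, `σ` be given by SBX (`Nat.card E' < Nat.card E`; `IsOp p ⊤ ⊥` for `K'` by A14: `(K.comap X.inc).map X.inc = K ⊓ X.inc.range`);
by hypothesis and TRS `cSum p (K ⊓ X.inc.range) ⊥ K f = 0`, and by CSM (`Γ = E`, `G = X.inc.range`, `K₀ = K`; its hypothesis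
by (a) and induction) it is `g K`. For `K₀ = ⊤` CSM ((a), (b)) says that `cSum p (⊤ ⊓ X.inc.range) ⊥ ⊤ f = g ⊤`; by TRS for the
identity of `X` (SBX (2), `ext0 id θ = θ`) this is `radS X p R d`; and `g ⊤ = ∑_L mob L * f L = jSum X p R d` by MOB. -/
def KEY_stmt : Prop :=
  ∀ (G E A : Type) [Group G] [Group E] [Group A] [Finite G] [Finite E] (X : Extension G E A)
    (p : ℕ) [Fact p.Prime] (R : (G → ℂ) → Prop) (d : ℤ), IsOp p (⊤ : Subgroup G) ⊥ →
    (∀ (K' E' : Type) [Group K'] [Group E'] [Finite K'] [Finite E'] (Y : Extension K' E' A)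
      (σ : Sub Y X), Nat.card E' < Nat.card E → IsOp p (⊤ : Subgroup K') ⊥ →
      radS Y p (fun θ => R (ext0 σ.j θ)) d = 0) →
    jSum X p R d = radS X p R d

/-- **RBX** (medium; as RBL of DR, `Pool/Agent/helper98/DR/RBL.lean`). Every `θ ∈ IrrOn (nrm C)`, `C` radical, induces to the block of
exactly one `b ∈ R₀` (`R₀` from C15 of di, C9), and then `R (ext0 j θ) ↔ R (ext0 j b)`. So the sum is the sum over the
`b ∈ R₀` with `R (ext0 j b)` of `|K'| * altSum Y p M b d ⊤` (D1 of di), and every summand is `0`: by the hypothesis for the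
blocks of positive defect, by D5 of di (`1 ≤ d`) for the others. -/
def RBX_stmt : Prop :=
  ∀ (K' E' A G : Type) [Group K'] [Group E'] [Group A] [Group G] [Finite K'] [Finite E'] [Finite G]
    (Y : Extension K' E' A) (j : K' →* G), Function.Injective j → ∀ (p : ℕ) [Fact p.Prime]
    (M : Ideal (integralClosure ℤ ℂ)), M.IsMaximal → (p : integralClosure ℤ ℂ) ∈ M →
    ∀ R : (G → ℂ) → Prop, (∀ θ b : K' → ℂ, Induces M θ b → (R (ext0 j θ) ↔ R (ext0 j b))) →
    ∀ d : ℤ, 1 ≤ d → (∀ b ∈ Irr K', PosDefect p M b → altSum Y p M b d ⊤ = 0) →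
    radS Y p (fun θ => R (ext0 j θ)) d = 0

/-- **IND** (short; from KEY, RBX, D1, C16, C1 of di). `R η = Induces M η χ`: if `Induces M θ b` (functions on `K'`) then
`omega (ext0 j θ) g ≡ omega (ext0 j b) g` for all `g ∈ G` (C16), so `R (ext0 j θ) ↔ R (ext0 j b)` (C1). KEY with RBX;
`radS X p R d = |G| * altSum X p M χ d ⊤` by D1 (`kR` is `kC` for `U = ⊤`). -/
def IND_stmt : Prop :=
  ∀ (G E A : Type) [Group G] [Group E] [Group A] [Finite G] [Finite E] (X : Extension G E A)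
    (p : ℕ) [Fact p.Prime] (M : Ideal (integralClosure ℤ ℂ)), M.IsMaximal →
    (p : integralClosure ℤ ℂ) ∈ M → IsOp p (⊤ : Subgroup G) ⊥ → ∀ χ ∈ Irr G, ∀ d : ℤ, 1 ≤ d →
    (∀ (K' E' : Type) [Group K'] [Group E'] [Finite K'] [Finite E'] (Y : Extension K' E' A)
      (_ : Sub Y X), Nat.card E' < Nat.card E → IsOp p (⊤ : Subgroup K') ⊥ →
      ∀ b ∈ Irr K', PosDefect p M b → altSum Y p M b d ⊤ = 0) →
    jSum X p (fun η => Induces M η χ) d = (Nat.card G : ℤ) * altSum X p M χ d ⊤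

/-- **FNA** (medium; from IND, D13, D6 of di, RE, ST of dq). Part (1). `→`: IND for `X`; its hypothesis holds as `E' ∈ 𝒳` (`SubX`,
`σ.ε`). `←`: induction on `|E|`: for all `X` with `Nat.card E = n`, `E ∈ 𝒳`, the sums for `U = ⊤` and positive defect are `0`:
if the block is not stable by ST; if `d ≤ 0` by D6; otherwise by IND (induction hypothesis) `|G| * altSum = jSum = 0`. For any
`U`: RE gives `∑_{V ≥ U} altSum X p M χ d V = altSum (resE X U) p M χ d ⊤ = 0` (the group of `resE X U` is a subgroup of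
`E`), then D13. -/
def FNA_stmt : Prop :=
  ∀ (p : ℕ) [Fact p.Prime] (M : Ideal (integralClosure ℤ ℂ)), M.IsMaximal →
    (p : integralClosure ℤ ℂ) ∈ M → ∀ 𝒳 : (E : Type) → [Group E] → Prop, SubX 𝒳 →
    (QX p M 𝒳 ↔ ∀ (G E A : Type) [Group G] [Group E] [Group A] [Finite G] [Finite E]
      (X : Extension G E A), 𝒳 E → IsOp p (⊤ : Subgroup G) ⊥ → ∀ χ ∈ Irr G, PosDefect p M χ →
      (∀ e : E, Induces M (funMap (X.act e) χ) χ) → ∀ d : ℤ, 1 ≤ d →
        jSum X p (fun η => Induces M η χ) d = 0)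

/-- **D1T** (short; copy of D1 of di, `Pool/Agent/helper65/DI/D1.lean`, without the block condition). -/
def D1T_stmt : Prop :=
  ∀ (G E A : Type) [Group G] [Group E] [Group A] [Finite G] (X : Extension G E A) (p : ℕ) (d : ℤ),
    (Nat.card G : ℤ) * altT X p d = radS X p (fun _ => True) d

/-- **FNB** (short to medium; from KEY, D1T). Part (2), block sums. Both directions by strong induction on `|E|`: KEY for
`R = True` (its hypothesis: D1T for `Y`, `E' ∈ 𝒳`) gives `jSum X p True d = radS X p True d = |G| * altT X p d`. -/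
def FNB_stmt : Prop :=
  ∀ (p : ℕ) [Fact p.Prime] (𝒳 : (E : Type) → [Group E] → Prop), SubX 𝒳 →
    ((∀ (G E A : Type) [Group G] [Group E] [Group A] [Finite G] [Finite E] (X : Extension G E A),
        𝒳 E → IsOp p (⊤ : Subgroup G) ⊥ → ∀ d : ℤ, 1 ≤ d → altT X p d = 0) ↔
      ∀ (G E A : Type) [Group G] [Group E] [Group A] [Finite G] [Finite E] (X : Extension G E A),
        𝒳 E → IsOp p (⊤ : Subgroup G) ⊥ → ∀ d : ℤ, 1 ≤ d → jSum X p (fun _ => True) d = 0)

/-! ### surface groups -/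

open Classical in
/-- **SKA** (medium; from B1, B4 of di, IRT of dq). The commutators `[x, y]`, `x` in the coset of `e`, `y ∈ G`. Let `w h` be the number of
the pairs with `[x, y] = h`. It is invariant under conjugation by `g ∈ G` (conjugate `x` and `y`; the coset is stable as `G` is
normal). `x = inc u * e`: `x * inc y * x⁻¹ = inc (u * act e y * u⁻¹)`. So
`∑_h w h ψ h = ∑_y ∑_u ψ (u (act e y) u⁻¹ y⁻¹) = ∑_y |G| ψ (act e y) ψ (y⁻¹) / ψ 1` (B4), and `∑_y ψ (act e y) ψ (y⁻¹)` is `|G|` if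
`ψ ∘ act e = ψ` and `0` otherwise (B1; `ψ ∘ act e` is irreducible, IRT). -/
def SKA_stmt : Prop :=
  ∀ (G E A : Type) [Group G] [Group E] [Group A] [Finite G] [Finite E] (X : Extension G E A) (e : E)
    (w : G → ℂ), (∀ h : G, w h = Nat.card {z : E × G // X.proj z.1 = X.proj e ∧
      z.1 * X.inc z.2 * z.1⁻¹ * (X.inc z.2)⁻¹ = X.inc h}) →
    IsZO w ∧ ∀ ψ ∈ Irr G, cc ψ w =
      if funMap (X.act e) ψ = ψ then ((Nat.card G : ℂ) / ψ 1) ^ 2 else 0

/-- **SKB** (short; from B1 of di and the column orthogonality / completeness CPL of `Pool/Agent/helper12/DD/Spec.lean`). A class function is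
determined by its inner products: `z = |G|⁻¹ ∑_ψ (∑_x z x ψ x) ψ(·⁻¹)`, evaluated at `1`. -/
def SKB_stmt : Prop :=
  ∀ (G : Type) [Group G] [Finite G] (z : G → ℂ), (∀ x y, z (y * x * y⁻¹) = z x) →
    (Nat.card G : ℂ) * z 1 = ∑ᶠ ψ ∈ Irr G, ψ 1 ^ 2 * cc ψ z

/-- **SKC** (medium; from SKA, SKB, C4 of di). Frobenius, Mednykh, with cosets. For `k ≤ n` let `H_k h` be the number of the
`(x_1, .., x_k, y_1, .., y_k)` with `x_i` in the coset `a_i` and `∏ [x_i, y_i] = inc h`; `H_(k+1)` for `a_0, .., a_k` is the convolution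
`cv w H` of `w` from SKA for `a_0` and of `H` for `a_1, .., a_k` (`cprod` of `Fin.cons`); so it is `IsZO` (C4) and
`cc ψ H_k` is the product of the `cc ψ w_i` (C4), `H_0 = δ_1`, `cc ψ δ_1 = 1`. SKB for `z = H_n`, `n = m + 1`. -/
def SKC_stmt : Prop :=
  ∀ (G E A : Type) [Group G] [Group E] [Group A] [Finite G] [Finite E] (X : Extension G E A) (m : ℕ)
    (a : Fin (m + 1) → A),
    (homL X a ⊤ : ℂ) = (Nat.card G : ℂ) * ∑ᶠ ψ ∈ {ψ : G → ℂ | ψ ∈ Irr G ∧ ∀ e : E,
      X.proj e ∈ Set.range a → funMap (X.act e) ψ = ψ}, ((Nat.card G : ℂ) / ψ 1) ^ (2 * m)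

/-- **SRL** (medium; from SKC, SBX, B13 of di, IF of dq). The homomorphisms to a subgroup `L`. If `L ⊔ X.inc.range ≠ ⊤` there are none, because
the `a i` generate `A` (`X.proj` maps `L` onto `A` if all `x i ∈ L`, and then `L ⊔ X.inc.range = ⊤`). If `L ⊔ X.inc.range = ⊤` let `Y`, `σ` be as
in SBX (1): `homL X a L = homL Y a ⊤`, SKC for `Y`; `ψ ↦ ext0 σ.j ψ` (B13) is a bijection to the `η`, `|K'| = |L.comap X.inc|`,
`ψ 1 = η 1`; `η` is fixed by all elements of `L` iff it is fixed by those over the `a i`: the elements of `L` which fix `η` form a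
subgroup which contains `L ∩ G` (class functions) and maps onto `A`. -/
def SRL_stmt : Prop :=
  ∀ (G E A : Type) [Group G] [Group E] [Group A] [Finite G] [Finite E] (X : Extension G E A) (m : ℕ)
    (a : Fin (m + 1) → A), Subgroup.closure (Set.range a) = ⊤ → ∀ L : Subgroup E,
    (L ⊔ X.inc.range ≠ ⊤ → homL X a L = 0) ∧ (L ⊔ X.inc.range = ⊤ →
      (homL X a L : ℂ) = (Nat.card (L.comap X.inc) : ℂ) *
        ∑ᶠ η ∈ {η : G → ℂ | η ∈ IrrOn (L.comap X.inc) ∧ ∀ e ∈ L, funMap (X.act e) η = η},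
          ((Nat.card (L.comap X.inc) : ℂ) / η 1) ^ (2 * m))

/-- **SEP** (short to medium; from MOB). Surjections. `homL X a H = ∑_{K ≤ H} g K`, where `g K` is the number of the tuples whose entries
generate `K`; `g ⊤ = epi X a`. -/
def SEP_stmt : Prop :=
  ∀ (G E A : Type) [Group G] [Group E] [Group A] [Finite G] [Finite E] (X : Extension G E A) (n : ℕ)
    (a : Fin n → A), (epi X a : ℤ) = ∑ᶠ L : Subgroup E, mob L * (homL X a L : ℤ)

/-- **SUR** (medium; from SRL, SEP, IF of dq, B1/B2 of di). By SEP and SRL `epi X a` is the sum over the supplements `L` of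
`mob L * |L ∩ G| * ∑_η (|L ∩ G| / η 1) ^ (2 m)`; `c = |L ∩ G| / η 1` is a natural number `≥ 1` (the degree divides the order, B2);
group the `η` by `c` (finitely many `c`: `c ≤ |G|`) and exchange the sums. -/
def SUR_stmt : Prop :=
  ∀ (G E A : Type) [Group G] [Group E] [Group A] [Finite G] [Finite E] (X : Extension G E A) (m : ℕ)
    (a : Fin (m + 1) → A), Subgroup.closure (Set.range a) = ⊤ →
    (epi X a : ℤ) = ∑ᶠ c : ℕ, mc X c * (c : ℤ) ^ (2 * m)

/-- **SLP** (short to medium; from B2 of di). `Defect p (L.comap X.inc) η d` iff `v_p(c) = d` for `c = |L ∩ G| / η 1`, which is a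
natural number (B2). `mc X c = 0` for `c = 0` and for `c > |G|`; exchange the sums. -/
def SLP_stmt : Prop :=
  ∀ (G E A : Type) [Group G] [Group E] [Group A] [Finite G] [Finite E] (X : Extension G E A) (p : ℕ)
    [Fact p.Prime] (d : ℤ),
    ∑ᶠ c ∈ {c : ℕ | (padicValNat p c : ℤ) = d}, mc X c = jSum X p (fun _ => True) d

end Pool.Agent.WC
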