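import Pool.Agent.helper22.WC.Spec
import Pool.Agent.helper91.DI.A4

set_option autoImplicit false

namespace Pool.Agent.WC

open Pool.Agent.helper58.DC Pool.Agent.DI Pool.Agent.DR

theorem CSE (hA1 : A1_stmt) : CSE_stmt := by
  classical
  intro Γ _ _ p _ L K Y hY hYK hYL hK hY1
  have h0 := hA1 (Subgroup Γ) {C | PCh p L ⊥ C ∧ K ≤ nrm C} (A4_t Y) (fun _ => 1) ?_
  · simpa using h0
  intro C hC D hD
  obtain ⟨hC, hKC⟩ : PCh p L ⊥ C ∧ K ≤ nrm C := hC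
  have hYP : ¬ Y ≤ ⊥ := fun h => hY1 (le_bot_iff.1 h)
  -- the largest term
  obtain ⟨R, hR⟩ : ∃ R, A4_top Y C R := by
    have hne : (C.filter fun Q => ¬ Y ≤ Q).Nonempty := ⟨⊥, Finset.mem_filter.2 ⟨hC.mem, hYP⟩⟩
    obtain ⟨R, hR⟩ := Finset.exists_maximal hne
    have hR1 := Finset.mem_filter.1 hR.prop
    refine ⟨R, hR1.1, hR1.2, fun Q hQ hQY => ?_⟩
    rcases hC.chain.total hQ hR1.1 with h | h
    · exact h
    · exact hR.le_of_ge (Finset.mem_filter.2 ⟨hQ, hQY⟩) h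
  have hPR : ⊥ ≤ R := hC.bot R hR.1
  have ht := A4_t_eq hR
  have hKQ : ∀ Q ∈ C, K ≤ nz Q := fun Q hQ x hx => A4_nrm.1 (hKC hx) Q hQ
  obtain ⟨T, hT⟩ : ∃ T, T = R ⊔ Y := ⟨_, rfl⟩
  rw [← hT] at ht
  have hYT : Y ≤ T := hT ▸ le_sup_right
  have hRT : R ≤ T := hT ▸ le_sup_left
  have hTR : R ≠ T := fun h => hR.2.1 (h ▸ hYT)
  have hTP : (⊥ : Subgroup Γ) ≠ T := fun h => hYP (h ▸ hYT)
  have hTL : T ≤ L := hT ▸ sup_le (hC.le R hR.1) hYL
  have hTp : IsPGroup p T := by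
    rw [hT]
    exact IsPGroup.to_sup_of_normal_left' (hC.pg R hR.1) hY (hYK.trans (hKQ R hR.1))
  have hKT : K ≤ nz T := by
    intro x hx
    rw [hT]
    exact A4_nz_sup (hKQ R hR.1 hx) (hK hx)
  have hcmp : ∀ Q ∈ C, Q ≤ T ∨ T ≤ Q := by
    intro Q hQ
    by_cases h : Y ≤ Q
    · right
      rcases hC.chain.total hQ hR.1 with h1 | h1
      · exact absurd (h.trans h1) hR.2.1
      · rw [hT]
        exact sup_le h1 h
    · left
      exact (hR.2.2 Q hQ h).trans hRT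
  have hmem : ∀ Q, Q ≠ T → (Q ∈ D ↔ Q ∈ C) := by
    intro Q hQ
    rcases hD with h | h
    · rw [h, Finset.mem_insert, ht]
      exact ⟨fun h => h.resolve_left hQ, Or.inr⟩
    · rw [h, Finset.mem_erase, ht]
      exact ⟨fun h => h.2, fun h => ⟨hQ, h⟩⟩
  have hRD : A4_top Y D R := by
    refine ⟨(hmem R hTR).2 hR.1, hR.2.1, fun Q hQ hQY => hR.2.2 Q ((hmem Q ?_).1 hQ) hQY⟩
    rintro rfl
    exact hQY hYT
  have hDch : PCh p L ⊥ D := by
    refine ⟨?_, (hmem ⊥ hTP).2 hC.mem, fun Q _ => bot_le, ?_, ?_⟩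
    · intro Q hQ Q' hQ' hne
      have hQ : Q ∈ D := hQ
      have hQ' : Q' ∈ D := hQ'
      by_cases h : Q = T
      · subst h
        exact (hcmp Q' ((hmem Q' (Ne.symm hne)).1 hQ')).symm
      · by_cases h' : Q' = T
        · subst h'
          exact hcmp Q ((hmem Q h).1 hQ)
        · exact hC.chain.total ((hmem Q h).1 hQ) ((hmem Q' h').1 hQ')
    · intro Q hQ
      by_cases h : Q = T
      · subst h
        exact hTL
      · exact hC.le Q ((hmem Q h).1 hQ)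
    · intro Q hQ
      by_cases h : Q = T
      · subst h
        exact hTp
      · exact hC.pg Q ((hmem Q h).1 hQ)
  refine ⟨⟨hDch, ?_⟩, (A4_t_eq hRD).trans (hT.symm.trans ht.symm), rfl⟩
  intro x hx
  rw [A4_nrm]
  intro Q hQ
  by_cases h : Q = T
  · rw [h]
    exact hKT hx
  · exact hKQ Q ((hmem Q h).1 hQ) hx

end Pool.Agent.WC
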