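import Pool.Agent.helper22.WC.Spec
import Pool.Agent.helper91.DI.A4

set_option autoImplicit false

namespace Pool.Agent.WC

open Pool.Agent.helper58.DC Pool.Agent.DI Pool.Agent.DR

theorem CSM_nrm_sing {Γ : Type} [Group Γ] (x : Γ) : x ∈ nrm ({⊥} : Finset (Subgroup Γ)) := by
  rw [A4_nrm]
  intro Q hQ
  rw [Finset.mem_singleton] at hQ
  subst hQ
  rw [show nz (⊥ : Subgroup Γ) = ⊤ from Subgroup.normalizer_eq_top _]
  exact Subgroup.mem_top x

theorem CSM (hCSE : CSE_stmt) (hA2 : A2_stmt) : CSM_stmt := by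
  classical
  intro Γ _ _ p _ G K₀ hG hop g hg
  have hfin : Fintype (Subgroup Γ) := Fintype.ofFinite _
  unfold cSum
  have hSf : {C : Finset (Subgroup Γ) | PCh p (K₀ ⊓ G) ⊥ C}.Finite := Set.toFinite _
  -- write everything as finite sums
  have h1 : ∀ C : Finset (Subgroup Γ),
      (-1 : ℤ) ^ (C.card + 1) * ∑ᶠ K ∈ {K : Subgroup Γ | K ≤ K₀ ⊓ nrm C}, g K =
        ∑ K : Subgroup Γ, if K ≤ K₀ ∧ K ≤ nrm C then (-1 : ℤ) ^ (C.card + 1) * g K else 0 := by
    intro C
    rw [finsum_mem_eq_finite_toFinset_sum _ (Set.toFinite _), Finset.mul_sum, ← Finset.sum_filter]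
    apply Finset.sum_congr
    · ext K
      simp [le_inf_iff]
    · intro K _
      rfl
  have h2 : ∑ᶠ C ∈ {C : Finset (Subgroup Γ) | PCh p (K₀ ⊓ G) ⊥ C},
      (-1 : ℤ) ^ (C.card + 1) * (fun H => ∑ᶠ K ∈ {K : Subgroup Γ | K ≤ H}, g K) (K₀ ⊓ nrm C) =
      ∑ K : Subgroup Γ, if K ≤ K₀ then
        (∑ᶠ C ∈ {C : Finset (Subgroup Γ) | PCh p (K₀ ⊓ G) ⊥ C ∧ K ≤ nrm C},
          (-1 : ℤ) ^ (C.card + 1)) * g K else 0 := by
    rw [finsum_mem_eq_finite_toFinset_sum _ hSf]
    simp only [h1]
    rw [Finset.sum_comm]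
    apply Finset.sum_congr rfl
    intro K _
    by_cases hK : K ≤ K₀
    · rw [if_pos hK, finsum_mem_eq_finite_toFinset_sum _ (Set.toFinite _), Finset.sum_mul]
      have h3 : (Set.toFinite {C : Finset (Subgroup Γ) | PCh p (K₀ ⊓ G) ⊥ C ∧ K ≤ nrm C}).toFinset =
          hSf.toFinset.filter fun C => K ≤ nrm C := by
        ext C
        simp
      rw [h3, Finset.sum_filter]
      apply Finset.sum_congr rfl
      intro C _
      by_cases hKC : K ≤ nrm C
      · rw [if_pos ⟨hK, hKC⟩, if_pos hKC]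
      · rw [if_neg (fun h => hKC h.2), if_neg hKC]
    · rw [if_neg hK]
      apply Finset.sum_eq_zero
      intro C _
      rw [if_neg (fun h => hK h.1)]
  rw [h2]
  have h4 : ∀ K : Subgroup Γ, (if K ≤ K₀ then
        (∑ᶠ C ∈ {C : Finset (Subgroup Γ) | PCh p (K₀ ⊓ G) ⊥ C ∧ K ≤ nrm C},
          (-1 : ℤ) ^ (C.card + 1)) * g K else 0) = if K = K₀ then g K else 0 := by
    intro K
    by_cases hK : K = K₀
    · subst hK
      rw [if_pos le_rfl, if_pos rfl]
      have h5 : {C : Finset (Subgroup Γ) | PCh p (K ⊓ G) ⊥ C ∧ K ≤ nrm C} = {{⊥}} := by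
        ext C
        rw [Set.mem_singleton_iff]
        constructor
        · rintro ⟨hC, hKC⟩
          ext Q
          rw [Finset.mem_singleton]
          constructor
          · intro hQ
            have h6 : Q ≤ ⊥ := hop.2 ⟨hC.le Q hQ, hC.pg Q hQ, fun x hx =>
              A4_nrm.1 (hKC hx.1) Q hQ⟩
            exact le_bot_iff.1 h6
          · intro hQ
            rw [hQ]
            exact hC.mem
        · intro hC
          subst hC
          refine ⟨⟨?_, Finset.mem_singleton_self _, ?_, ?_, ?_⟩, fun x _ => CSM_nrm_sing x⟩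
          · intro Q hQ Q' hQ' hne
            have e1 : Q = ⊥ := Finset.mem_singleton.1 hQ
            have e2 : Q' = ⊥ := Finset.mem_singleton.1 hQ'
            exact absurd (e1.trans e2.symm) hne
          · intro Q _
            exact bot_le
          · intro Q hQ
            rw [Finset.mem_singleton.1 hQ]
            exact bot_le
          · intro Q hQ
            rw [Finset.mem_singleton.1 hQ]
            exact IsPGroup.of_bot
      rw [h5, finsum_mem_singleton, Finset.card_singleton]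
      norm_num
    · rw [if_neg hK]
      by_cases hKK : K ≤ K₀
      · rw [if_pos hKK]
        obtain ⟨⟨Y, hY⟩, hA⟩ := hA2 Γ p (K ⊓ G)
        obtain ⟨hY1, hY2, -, hY4, -⟩ := hA Y hY
        by_cases hYb : Y = ⊥
        · rw [hg K hKK hK (hYb ▸ hY), mul_zero]
        · rw [hCSE Γ p (K₀ ⊓ G) K Y hY2 (hY1.trans inf_le_left)
            (hY1.trans (inf_le_inf_right G hKK)) ?_ hYb, zero_mul]
          refine le_trans ?_ hY4
          intro x hx
          rw [Subgroup.mem_normalizer_iff]
          intro y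
          rw [Subgroup.mem_inf, Subgroup.mem_inf]
          constructor
          · rintro ⟨h5, h6⟩
            exact ⟨K.mul_mem (K.mul_mem hx h5) (K.inv_mem hx), hG.conj_mem y h6 x⟩
          · rintro ⟨h5, h6⟩
            refine ⟨?_, ?_⟩
            · have h7 := K.mul_mem (K.mul_mem (K.inv_mem hx) h5) hx
              have h8 : x⁻¹ * (x * y * x⁻¹) * x = y := by group
              rwa [h8] at h7
            · have h7 := hG.conj_mem _ h6 x⁻¹
              have h8 : x⁻¹ * (x * y * x⁻¹) * x⁻¹⁻¹ = y := by group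
              rwa [h8] at h7
      · rw [if_neg hKK]
  simp only [h4]
  rw [Finset.sum_ite_eq' Finset.univ K₀ g, if_pos (Finset.mem_univ _)]

end Pool.Agent.WC
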