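import Pool.Agent.helper22.WC.Spec

set_option autoImplicit false

namespace Pool.Agent.WC

open Pool.Agent.helper58.DC Pool.Agent.DI Pool.Agent.DR

theorem FNA (hIND : IND_stmt) (hD13 : D13_stmt) (hD6 : D6_stmt) (hRE : RE_stmt) (hST : ST_stmt) :
    FNA_stmt := by
  intro p _ M hM hpM 𝒳 hSub
  constructor
  · intro hQ G E A _ _ _ _ _ X hE hop χ hχ hpos hst d hd
    rw [hIND G E A X p M hM hpM hop χ hχ d hd ?_, hQ G E A X hE hop χ hχ hpos d ⊤, mul_zero]
    intro K' E' _ _ _ _ Y σ hlt hop' b hb hbpos
    exact hQ K' E' A Y (hSub E E' σ.ε σ.ε_inj hE) hop' b hb hbpos d ⊤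
  · intro hJ
    -- the sums for `U = ⊤`
    have key : ∀ n : ℕ, ∀ (G E A : Type) [Group G] [Group E] [Group A] [Finite G] [Finite E]
        (X : Extension G E A), Nat.card E = n → 𝒳 E → IsOp p (⊤ : Subgroup G) ⊥ → ∀ χ ∈ Irr G,
        PosDefect p M χ → ∀ d : ℤ, altSum X p M χ d ⊤ = 0 := by
      intro n
      induction n using Nat.strong_induction_on with
      | _ n ih =>
        intro G E A _ _ _ _ _ X hn hE hop χ hχ hpos d
        by_cases hS : Stable X M χ
        · rcases le_or_gt d 0 with hd | hd
          · exact hD6 G E A X p M hM hpM χ hχ hpos d hd ⊤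
          · have h1 := hIND G E A X p M hM hpM hop χ hχ d (by omega) (by
              intro K' E' _ _ _ _ Y σ hlt hop' b hb hbpos
              exact ih (Nat.card E') (by omega) K' E' A Y rfl (hSub E E' σ.ε σ.ε_inj hE) hop' b hb
                hbpos d)
            rw [hJ G E A X hE hop χ hχ hpos hS d (by omega)] at h1
            have h2 : (Nat.card G : ℤ) ≠ 0 := by
              exact_mod_cast Nat.card_pos.ne'
            exact (mul_eq_zero.1 h1.symm).resolve_left h2
        · by_contra hne
          exact hS (hST G E A X p M χ hχ d hne)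
    intro G E A _ _ _ _ _ X hE hop χ hχ hpos d U
    have hfin : Finite A := Finite.of_surjective X.proj X.proj_surjective
    refine hD13 A (fun U => altSum X p M χ d U) (fun U => ?_) U
    have h3 := hRE G E A X p M χ hχ d U
    show ∑ᶠ V : {V : Subgroup A // U ≤ V}, altSum X p M χ d V.1 = 0
    rw [← h3]
    exact key _ G (U.comap X.proj) U (resE X U) rfl
      (hSub E (U.comap X.proj) (U.comap X.proj).subtype (Subgroup.subtype_injective _) hE) hop χ hχ
      hpos d

end Pool.Agent.WC
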