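import Pool.Agent.helper22.WC.Spec

set_option autoImplicit false

namespace Pool.Agent.WC

open Pool.Agent.helper58.DC Pool.Agent.DI Pool.Agent.DR

theorem IND (hKEY : KEY_stmt) (hRBX : RBX_stmt) (hD1 : D1_stmt) (hC16 : C16_stmt) (hC1 : C1_stmt) :
    IND_stmt := by
  intro G E A _ _ _ _ _ X p _ M hM hpM hop χ hχ d hd hsmall
  obtain ⟨-, hsym, htr, -⟩ := hC1 p M hM hpM
  rw [hKEY G E A X p (fun η => Induces M η χ) d hop ?_, hD1 G E A X p M χ hχ d ⊤]
  · rfl
  · intro K' E' _ _ _ _ Y σ hlt hop'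
    refine hRBX K' E' A G Y σ.j σ.j_inj p M hM hpM (fun η => Induces M η χ) ?_ d hd
      (hsmall K' E' Y σ hlt hop')
    intro θ b hI
    have h3 := hC16 K' G p M hM hpM σ.j σ.j_inj θ b hI
    constructor
    · intro h g
      exact htr _ _ _ (hsym _ _ (h3 g)) (h g)
    · intro h g
      exact htr _ _ _ (h3 g) (h g)

end Pool.Agent.WC
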