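import Pool.Agent.helper22.WC.Spec

set_option autoImplicit false

namespace Pool.Agent.WC

open Pool.Agent.helper58.DC Pool.Agent.DI Pool.Agent.DR

theorem KEY (hMOB : MOB_stmt) (hCSM : CSM_stmt) (hSBX : SBX_stmt) (hTRS : TRS_stmt)
    (hA14 : A14_stmt) : KEY_stmt := by
  classical
  intro G E A _ _ _ _ _ X p _ R d hop hsmall
  obtain ⟨hM1, hM2⟩ := hMOB E
  obtain ⟨g, hg⟩ := hM2 (fR X p R d)
  have hgf : fR X p R d = fun H => ∑ᶠ K ∈ {K : Subgroup E | K ≤ H}, g K := funext hg
  obtain ⟨hS1, ⟨σ₁, hσj, hσε⟩, -⟩ := hSBX G E A X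
  have hnor : X.inc.range.Normal := by
    refine ⟨?_⟩
    rintro _ ⟨g, rfl⟩ e
    exact ⟨X.act e g, X.act_spec e g⟩
  -- splitting off the last term
  have hsplit : ∀ H : Subgroup E, (∀ K, K < H → g K = 0) → g H = fR X p R d H := by
    intro H hH
    rw [hg H]
    have h1 : {K : Subgroup E | K ≤ H} = insert H {K : Subgroup E | K < H} := by
      ext K
      simp only [Set.mem_ofPred_eq, Set.mem_insert_iff]
      constructor
      · intro h
        rcases h.eq_or_lt with h | h
        · exact Or.inl h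
        · exact Or.inr h
      · rintro (h | h)
        · exact h ▸ le_rfl
        · exact h.le
    rw [h1, finsum_mem_insert _ (by simp) (Set.toFinite _)]
    have h2 : ∑ᶠ K ∈ {K : Subgroup E | K < H}, g K = 0 := by
      exact finsum_mem_of_eqOn_zero fun K hK => hH K hK
    rw [h2, add_zero]
  have hcard : ∀ {K H : Subgroup E}, K < H → Nat.card K < Nat.card H := fun {K H} h =>
    Set.Finite.card_lt_card (Set.toFinite _) h
  -- (a)
  have ha : ∀ n : ℕ, ∀ K : Subgroup E, Nat.card K = n → K ⊔ X.inc.range ≠ ⊤ → g K = 0 := by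
    intro n
    induction n using Nat.strong_induction_on with
    | _ n ih =>
      intro K hK hKt
      rw [hsplit K (fun L hL => ih _ (hK ▸ hcard hL) L rfl (fun h => hKt (by
        rw [eq_top_iff, ← h]
        exact sup_le_sup_right hL.le _)))]
      unfold fR
      rw [if_neg hKt]
  -- (b)
  have hb : ∀ n : ℕ, ∀ K : Subgroup E, Nat.card K = n → K ≠ ⊤ → IsOp p (K ⊓ X.inc.range) ⊥ →
      g K = 0 := by
    intro n
    induction n using Nat.strong_induction_on with
    | _ n ih =>
      intro K hK hKt hKo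
      by_cases hKs : K ⊔ X.inc.range = ⊤
      · obtain ⟨Y, σ, hj, hε⟩ := hS1 K hKs
        have h1 : Nat.card K < Nat.card E := by
          have h2 := hcard (lt_top_iff_ne_top.2 hKt)
          rwa [Subgroup.card_top] at h2
        have h3 : IsOp p (⊤ : Subgroup ↥(K.comap X.inc)) ⊥ := by
          have h4 : (K.comap X.inc).map X.inc = K ⊓ X.inc.range := by
            rw [Subgroup.map_comap_eq, inf_comm]
          have h5 := (hA14 G E p X.inc X.inc_injective).1 (K.comap X.inc) ⊥
          rw [h4, Subgroup.map_bot] at h5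
          exact ((hA14 G G p (MonoidHom.id G) Function.injective_id).2.2 (K.comap X.inc)).2 (h5.2 hKo)
        have h6 := hsmall ↥(K.comap X.inc) ↥K Y σ h1 h3
        have h7 := hTRS _ _ _ _ _ Y X σ p R d h3
        rw [h6, hε, Subgroup.range_subtype, hgf] at h7
        rw [← h7]
        exact (hCSM E p X.inc.range K hnor hKo g (fun L hL hLK hLo =>
          ih _ (hK ▸ hcard (lt_of_le_of_ne hL hLK)) L rfl
            (fun h => hKt (top_le_iff.1 (h ▸ hL))) hLo)).symm
      · exact ha _ K rfl hKs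
  have h8 := hTRS _ _ _ _ _ X X σ₁ p R d hop
  have h9 : σ₁.ε.range = ⊤ := by
    rw [hσε, MonoidHom.range_eq_top]
    exact Function.surjective_id
  have h10 : ∀ θ : G → ℂ, ext0 σ₁.j θ = θ := by
    intro θ
    funext x
    have h11 : (MonoidHom.id G : G → G) = id := rfl
    show Function.extend σ₁.j θ 0 x = θ x
    rw [hσj]
    have h12 := Function.injective_id.extend_apply θ 0 x
    exact h12
  have hop2 : IsOp p (⊤ ⊓ X.inc.range) ⊥ := by
    rw [top_inf_eq]
    exact (hA14 G E p X.inc X.inc_injective).2.1.1 hop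
  rw [h9] at h8
  have h13 : (fun θ : G → ℂ => R (ext0 σ₁.j θ)) = R := by
    funext θ
    rw [h10]
  rw [h13, hgf, hCSM E p X.inc.range ⊤ hnor hop2 g (fun L _ hL hLo => hb _ L rfl hL hLo)] at h8
  rw [← h8, ← hM1 g]
  unfold jSum
  have hfin : Fintype (Subgroup E) := Fintype.ofFinite _
  rw [finsum_mem_eq_finite_toFinset_sum _ (Set.toFinite _), finsum_eq_sum_of_fintype]
  have h14 : ∀ L : Subgroup E, mob L * ∑ᶠ K ∈ {K : Subgroup E | K ≤ L}, g K =
      if L ⊔ X.inc.range = ⊤ then mob L * ((Nat.card (L.comap X.inc) : ℤ) * cnt X p R d L) else 0 := by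
    intro L
    rw [← hg L]
    unfold fR
    split_ifs
    · rfl
    · rw [mul_zero]
  simp only [h14]
  rw [← Finset.sum_filter]
  apply Finset.sum_congr _ fun _ _ => rfl
  ext L
  simp

end Pool.Agent.WC
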