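import Pool.Agent.helper22.WC.Spec

set_option autoImplicit false

namespace Pool.Agent.WC

open Pool.Agent.helper58.DC Pool.Agent.DI Pool.Agent.DR

open Classical in
/-- the recurrence of the Möbius function -/
theorem MOB_rec {E : Type} [Group E] [Finite E] (L : Subgroup E) :
    ∑ᶠ K ∈ {K : Subgroup E | L ≤ K}, mob K = if L = ⊤ then 1 else 0 := by
  have h1 : {K : Subgroup E | L ≤ K} = insert L {K : Subgroup E | L < K} := by
    ext K
    simp only [Set.mem_ofPred_eq, Set.mem_insert_iff]
    constructor
    · intro h
      rcases h.eq_or_lt with h | h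
      · exact Or.inl h.symm
      · exact Or.inr h
    · rintro (h | h)
      · exact h ▸ le_rfl
      · exact h.le
  rw [h1, finsum_mem_insert _ (by simp) (Set.toFinite _)]
  have h2 : ∑ᶠ K ∈ {K : Subgroup E | L < K}, mob K = ∑ᶠ K : {K : Subgroup E // L < K}, mob K.1 :=
    (finsum_set_coe_eq_finsum_mem {K : Subgroup E | L < K}).symm
  rw [h2]
  by_cases hL : L = ⊤
  · subst hL
    rw [if_pos rfl, mob, if_pos rfl]
    have : IsEmpty {K : Subgroup E // ⊤ < K} := ⟨fun K => absurd K.2 not_top_lt⟩
    rw [finsum_of_isEmpty, add_zero]
  · rw [if_neg hL, mob, if_neg hL, neg_add_cancel]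

theorem MOB : MOB_stmt := by
  intro E _ _
  classical
  have hfin : Fintype (Subgroup E) := Fintype.ofFinite _
  constructor
  · intro g
    have h1 : ∀ L : Subgroup E, mob L * ∑ᶠ K ∈ {K : Subgroup E | K ≤ L}, g K =
        ∑ K : Subgroup E, if K ≤ L then mob L * g K else 0 := by
      intro L
      rw [finsum_mem_eq_finite_toFinset_sum _ (Set.toFinite _), Finset.mul_sum, ← Finset.sum_filter]
      apply Finset.sum_congr
      · ext K
        simp
      · intro K _
        rfl
    rw [finsum_eq_sum_of_fintype]
    simp only [h1]
    rw [Finset.sum_comm]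
    have h2 : ∀ K : Subgroup E, (∑ L : Subgroup E, if K ≤ L then mob L * g K else 0) =
        if K = ⊤ then g K else 0 := by
      intro K
      have h3 := MOB_rec K
      rw [finsum_mem_eq_finite_toFinset_sum _ (Set.toFinite _)] at h3
      rw [← Finset.sum_filter, ← Finset.sum_mul]
      have h4 : (Finset.univ.filter fun L : Subgroup E => K ≤ L) =
          (Set.toFinite {L : Subgroup E | K ≤ L}).toFinset := by
        ext L
        simp
      rw [h4, h3]
      by_cases hK : K = ⊤
      · rw [if_pos hK, if_pos hK, one_mul]
      · rw [if_neg hK, if_neg hK, zero_mul]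
    simp only [h2]
    rw [Finset.sum_ite_eq' Finset.univ ⊤ g, if_pos (Finset.mem_univ _)]
  · intro f
    -- strong recursion on the order
    have key : ∀ n : ℕ, ∃ g : Subgroup E → ℤ, ∀ H : Subgroup E, Nat.card H < n →
        f H = ∑ᶠ K ∈ {K : Subgroup E | K ≤ H}, g K := by
      intro n
      induction n with
      | zero => exact ⟨0, fun H h => absurd h (Nat.not_lt_zero _)⟩
      | succ n ih =>
        obtain ⟨g, hg⟩ := ih
        refine ⟨fun H => if Nat.card H < n then g H else
          f H - ∑ᶠ K ∈ {K : Subgroup E | K < H}, g K, fun H hH => ?_⟩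
        have hsplit : {K : Subgroup E | K ≤ H} = insert H {K : Subgroup E | K < H} := by
          ext K
          simp only [Set.mem_ofPred_eq, Set.mem_insert_iff]
          constructor
          · intro h
            rcases h.eq_or_lt with h | h
            · exact Or.inl h
            · exact Or.inr h
          · rintro (h | h)
            · exact h ▸ le_rfl
            · exact h.le
        have hlt : ∀ K : Subgroup E, K < H → Nat.card K < n := by
          intro K hK
          have h1 : Nat.card K < Nat.card H := Set.Finite.card_lt_card (Set.toFinite _) hK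
          omega
        have hsum : ∑ᶠ K ∈ {K : Subgroup E | K < H}, (if Nat.card K < n then g K else
            f K - ∑ᶠ K' ∈ {K' : Subgroup E | K' < K}, g K') =
            ∑ᶠ K ∈ {K : Subgroup E | K < H}, g K :=
          finsum_mem_congr rfl fun K hK => if_pos (hlt K hK)
        rw [hsplit, finsum_mem_insert _ (by simp) (Set.toFinite _), hsum]
        split_ifs with h
        · have h1 := hg H h
          rw [hsplit, finsum_mem_insert _ (by simp) (Set.toFinite _)] at h1
          exact h1
        · ring
    obtain ⟨g, hg⟩ := key (Nat.card E + 1)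
    refine ⟨g, fun H => hg H ?_⟩
    have := Nat.card_le_card_of_injective _ (Subgroup.subtype_injective H)
    omega

end Pool.Agent.WC
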