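import Pool.Agent.helper22.WC.Spec
import Pool.Agent.helper98.DR.RBL

set_option autoImplicit false

namespace Pool.Agent.WC

open Pool.Agent.helper58.DC Pool.Agent.DI Pool.Agent.DR

theorem RBX (hD1 : D1_stmt) (hD5 : D5_stmt) (hC15 : C15_stmt) (hC9 : C9_stmt)
    (hB2 : Pool.Agent.DI.B2_stmt) : RBX_stmt := by
  classical
  intro K E A G _ _ _ _ _ _ _ Y i hi p _ M hM hpM Rp hRp d hd halt'
  obtain ⟨R, hR, hRu⟩ := hC15 K M
  have halt : ∀ b ∈ R, altSum Y p M b d ⊤ = 0 := by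
    intro b hb
    by_cases hpos : PosDefect p M b
    · exact halt' b (hR b hb) hpos
    · exact hD5 K E A Y p M hM hpM b (hR b hb) hpos d hd ⊤
  -- the count
  have hN : ∀ C : Finset (Subgroup K), IsRadical p C →
      (kR Y p (fun θ => Rp (ext0 i θ)) d C : ℤ) =
      ∑ b ∈ R, if Rp (ext0 i b) then (kC Y p M b d ⊤ C : ℤ) else 0 := by
    intro C hC
    have h1 : ∀ ψ ∈ IrrOn (nrm C), ∃! b, b ∈ R ∧ Induces M ψ b := fun ψ hψ =>
      hRu ψ (hC9 K p M hM hpM C hC ψ hψ)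
    have h2 : ∀ ψ ∈ IrrOn (nrm C), ∀ b ∈ R, Induces M ψ b →
        (Rp (ext0 i ψ) ↔ Rp (ext0 i b)) := fun ψ _ b _ hI => hRp ψ b hI
    have h4 := RBL_count (IrrOn (nrm C)) (hB2 K (nrm C)).1 R (Induces M)
      (fun ψ => Rp (ext0 i ψ))
      (fun ψ => Defect p (nrm C) ψ d ∧ (Y.stab C ψ).map Y.proj = ⊤) h1 h2
    have e1 : kR Y p (fun θ => Rp (ext0 i θ)) d C = Nat.card {ψ : K → ℂ // ψ ∈ IrrOn (nrm C) ∧
          (Defect p (nrm C) ψ d ∧ (Y.stab C ψ).map Y.proj = ⊤) ∧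
          Rp (ext0 i ψ)} := by
      unfold kR
      apply Nat.card_congr
      apply Equiv.subtypeEquivRight
      intro ψ
      tauto
    rw [e1, h4]
    apply Finset.sum_congr rfl
    intro b _
    have e2 : kC Y p M b d ⊤ C =
        Nat.card {ψ : K → ℂ // ψ ∈ IrrOn (nrm C) ∧
          (Defect p (nrm C) ψ d ∧ (Y.stab C ψ).map Y.proj = ⊤) ∧ Induces M ψ b} := by
      unfold kC
      apply Nat.card_congr
      apply Equiv.subtypeEquivRight
      intro ψ
      tauto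
    rw [e2]
  have hfin : {C : Finset (Subgroup K) | IsRadical p C}.Finite := Set.toFinite _
  unfold radS
  rw [finsum_mem_eq_finite_toFinset_sum _ hfin]
  have hL : ∀ C ∈ hfin.toFinset, (-1 : ℤ) ^ (C.card + 1) *
      ((Nat.card (nrm C) : ℤ) * kR Y p (fun θ => Rp (ext0 i θ)) d C) =
      ∑ b ∈ R, if Rp (ext0 i b) then (-1 : ℤ) ^ (C.card + 1) *
          ((Nat.card (nrm C) : ℤ) * (kC Y p M b d ⊤ C : ℤ)) else 0 := by
    intro C hC
    have hC' : IsRadical p C := by simpa using hC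
    rw [hN C hC', Finset.mul_sum, Finset.mul_sum]
    apply Finset.sum_congr rfl
    intro b _
    by_cases hb : Rp (ext0 i b)
    · simp only [hb, if_true]
    · simp [hb]
  rw [Finset.sum_congr rfl hL, Finset.sum_comm]
  apply Finset.sum_eq_zero
  intro b hb
  by_cases hcb : Rp (ext0 i b)
  · simp only [hcb, if_true]
    have h5 := hD1 K E A Y p M b (hR b hb) d ⊤
    rw [halt b hb, mul_zero, finsum_mem_eq_finite_toFinset_sum _ hfin] at h5
    exact h5.symm
  · simp [hcb]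

end Pool.Agent.WC
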