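import Pool.Agent.helper22.WC.Spec

set_option autoImplicit false

namespace Pool.Agent.WC

open Pool.Agent.helper58.DC Pool.Agent.DI Pool.Agent.DR

/-- a supplement maps onto the quotient -/
theorem SBX_surj {G E A : Type} [Group G] [Group E] [Group A] (X : Extension G E A) (K : Subgroup E) :
    K ⊔ X.inc.range = ⊤ ↔ ∀ a : A, ∃ e ∈ K, X.proj e = a := by
  have hn : X.inc.range.Normal := by
    have h : X.inc.range = X.proj.ker := by
      ext e
      rw [MonoidHom.mem_range, MonoidHom.mem_ker, X.exact]
    rw [h]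
    infer_instance
  constructor
  · intro h a
    obtain ⟨e, rfl⟩ := X.proj_surjective a
    have he : e ∈ K ⊔ X.inc.range := by rw [h]; exact Subgroup.mem_top e
    rw [Subgroup.mem_sup_of_normal_right] at he
    obtain ⟨k, hk, z, ⟨g, rfl⟩, rfl⟩ := he
    refine ⟨k, hk, ?_⟩
    rw [map_mul, (X.exact (X.inc g)).2 ⟨g, rfl⟩, mul_one]
  · intro h
    rw [eq_top_iff]
    intro e _
    obtain ⟨k, hk, hke⟩ := h (X.proj e)
    have h1 : X.proj (k⁻¹ * e) = 1 := by rw [map_mul, map_inv, hke, inv_mul_cancel]
    obtain ⟨g, hg⟩ := (X.exact _).1 h1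
    have h2 : e = k * X.inc g := by rw [hg, mul_inv_cancel_left]
    rw [h2]
    exact Subgroup.mul_mem_sup hk ⟨g, rfl⟩

/-- the restriction of the action -/
noncomputable def SBX_act {G E A : Type} [Group G] [Group E] [Group A] (X : Extension G E A) (K : Subgroup E) :
    K →* MulAut (K.comap X.inc) where
  toFun e :=
    { toFun := fun g => ⟨X.act e g, by
        rw [Subgroup.mem_comap, X.act_spec]
        exact K.mul_mem (K.mul_mem e.2 g.2) (K.inv_mem e.2)⟩
      invFun := fun g => ⟨X.act (e : E)⁻¹ g, by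
        rw [Subgroup.mem_comap, X.act_spec]
        exact K.mul_mem (K.mul_mem (K.inv_mem e.2) g.2) (K.inv_mem (K.inv_mem e.2))⟩
      left_inv := fun g => Subtype.ext (by
        show X.act (e : E)⁻¹ (X.act e g) = g
        rw [← MulAut.mul_apply, ← map_mul, inv_mul_cancel, map_one]
        rfl)
      right_inv := fun g => Subtype.ext (by
        show X.act (e : E) (X.act (e : E)⁻¹ g) = g
        rw [← MulAut.mul_apply, ← map_mul, mul_inv_cancel, map_one]
        rfl)
      map_mul' := fun g h => Subtype.ext (by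
        show X.act e (g * h) = X.act e g * X.act e h
        rw [map_mul]) }
  map_one' := by
    refine MulEquiv.ext fun g => Subtype.ext ?_
    show X.act ((1 : K) : E) g = g
    rw [Subgroup.coe_one, map_one]
    rfl
  map_mul' := fun e f => by
    refine MulEquiv.ext fun g => Subtype.ext ?_
    show X.act ((e * f : K) : E) g = X.act e (X.act f g)
    rw [Subgroup.coe_mul, map_mul]
    rfl

theorem SBX_act_coe {G E A : Type} [Group G] [Group E] [Group A] (X : Extension G E A) (K : Subgroup E)
    (e : K) (g : K.comap X.inc) : ((SBX_act X K e g : K.comap X.inc) : G) = X.act e g := rfl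

/-- the extension given by a supplement -/
noncomputable def SBX_Y {G E A : Type} [Group G] [Group E] [Group A] (X : Extension G E A) (K : Subgroup E)
    (hK : K ⊔ X.inc.range = ⊤) : Extension ↥(K.comap X.inc) ↥K A where
  inc := (X.inc.comp (K.comap X.inc).subtype).codRestrict K (fun g => g.2)
  proj := X.proj.comp K.subtype
  inc_injective := fun g h hgh => Subtype.ext (X.inc_injective (congrArg Subtype.val hgh))
  proj_surjective := fun a => by
    obtain ⟨e, he, hea⟩ := (SBX_surj X K).1 hK a
    exact ⟨⟨e, he⟩, hea⟩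
  exact := fun e => by
    constructor
    · intro h
      obtain ⟨g, hg⟩ := (X.exact (e : E)).1 h
      exact ⟨⟨g, by rw [Subgroup.mem_comap, hg]; exact e.2⟩, Subtype.ext hg⟩
    · rintro ⟨g, rfl⟩
      exact (X.exact _).2 ⟨g, rfl⟩
  act := SBX_act X K
  act_spec := fun e g => Subtype.ext (by
    show X.inc ((SBX_act X K e g : K.comap X.inc) : G) = _
    rw [SBX_act_coe, X.act_spec]
    rfl)

theorem SBX : SBX_stmt := by
  intro G E A _ _ _ X
  refine ⟨?_, ?_, ?_⟩
  · intro K hK
    exact ⟨SBX_Y X K hK,
      { j := (K.comap X.inc).subtype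
        ε := K.subtype
        j_inj := Subgroup.subtype_injective _
        ε_inj := Subgroup.subtype_injective _
        inc := fun _ => rfl
        proj := fun _ => rfl }, rfl, rfl⟩
  · exact ⟨{ j := MonoidHom.id G
             ε := MonoidHom.id E
             j_inj := Function.injective_id
             ε_inj := Function.injective_id
             inc := fun _ => rfl
             proj := fun _ => rfl }, rfl, rfl⟩
  · intro K' E' _ _ Y σ
    have hr : ∀ (g : G) (e : E'), X.inc g = σ.ε e → ∃ k, e = Y.inc k ∧ g = σ.j k := by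
      intro g e h
      have h1 : Y.proj e = 1 := by
        rw [← σ.proj, ← h]
        exact (X.exact _).2 ⟨g, rfl⟩
      obtain ⟨k, hk⟩ := (Y.exact _).1 h1
      refine ⟨k, hk.symm, X.inc_injective ?_⟩
      rw [h, ← σ.inc, hk]
    refine ⟨fun g => ⟨?_, ?_⟩, fun L => ?_, fun L => ?_, fun e k => ?_⟩
    · rintro ⟨e, he⟩
      obtain ⟨k, -, hk⟩ := hr g e he.symm
      exact ⟨k, hk.symm⟩
    · rintro ⟨k, rfl⟩
      exact ⟨Y.inc k, σ.inc k⟩
    · ext g
      rw [Subgroup.mem_comap, Subgroup.mem_map, Subgroup.mem_map]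
      constructor
      · rintro ⟨l, hl, hlg⟩
        obtain ⟨k, h1, h2⟩ := hr g l hlg.symm
        exact ⟨k, by rw [Subgroup.mem_comap, ← h1]; exact hl, h2.symm⟩
      · rintro ⟨k, hk, rfl⟩
        exact ⟨Y.inc k, hk, σ.inc k⟩
    · rw [SBX_surj, SBX_surj]
      apply forall_congr'
      intro a
      constructor
      · rintro ⟨e, he, hea⟩
        obtain ⟨l, hl, rfl⟩ := Subgroup.mem_map.1 he
        exact ⟨l, hl, by rw [← σ.proj, hea]⟩
      · rintro ⟨l, hl, hla⟩
        exact ⟨σ.ε l, Subgroup.mem_map_of_mem _ hl, by rw [σ.proj, hla]⟩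
    · apply X.inc_injective
      rw [X.act_spec, ← σ.inc, Y.act_spec, map_mul, map_mul, map_inv, σ.inc]

end Pool.Agent.WC
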