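import Pool.Agent.helper22.WC.SBX
import Pool.Agent.helper55.DC.ST

set_option autoImplicit false

namespace Pool.Agent.WC

open Pool.Agent.helper58.DC Pool.Agent.DI Pool.Agent.DR

/-- naturality of the extension by zero -/
theorem TRK_ext {K G : Type} [Group K] [Group G] (j : K →* G) (hj : Function.Injective j)
    (α : MulAut K) (β : MulAut G) (h : ∀ k, j (α k) = β (j k)) (ψ : K → ℂ) :
    funMap β (ext0 j ψ) = ext0 j (funMap α ψ) := by
  funext g
  show Function.extend j ψ 0 (β⁻¹ g) = Function.extend j (funMap α ψ) 0 g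
  by_cases hg : ∃ k, j k = g
  · obtain ⟨k, rfl⟩ := hg
    have h1 : β⁻¹ (j k) = j (α⁻¹ k) := by
      have h2 := h (α⁻¹ k)
      rw [MulAut.apply_inv_self] at h2
      rw [h2, MulAut.inv_apply_self]
    rw [h1, hj.extend_apply, hj.extend_apply]
    rfl
  · have h1 : ¬ ∃ k, j k = β⁻¹ g := by
      rintro ⟨k, hk⟩
      exact hg ⟨α k, by rw [h, hk, MulAut.apply_inv_self]⟩
    rw [Function.extend_apply' _ _ _ hg, Function.extend_apply' _ _ _ h1]
    rfl

theorem TRK (hSBX : SBX_stmt) (hB13 : B13_stmt) (hB14 : B14_stmt) (hIF : IF_stmt) : TRK_stmt := by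
  classical
  intro K' E' G E A _ _ _ _ _ _ _ _ _ Y X σ p _ R d C hC hne
  obtain ⟨-, -, h3⟩ := hSBX G E A X
  obtain ⟨hrg, -, -, hact⟩ := h3 K' E' Y σ
  obtain ⟨i, hi⟩ : ∃ i : K' →* E, i = X.inc.comp σ.j := ⟨_, rfl⟩
  have hiv : ∀ k, i k = σ.ε (Y.inc k) := fun k => by rw [hi, σ.inc]; rfl
  have hiv' : ∀ k, i k = X.inc (σ.j k) := fun k => by rw [hi]; rfl
  have hii : Function.Injective i := by
    intro k l hkl
    rw [hiv', hiv'] at hkl
    exact σ.j_inj (X.inc_injective hkl)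
  rw [← hi]
  obtain ⟨N, hN⟩ : ∃ N, N = σ.ε.range ⊓ nrm (cmap i C) := ⟨_, rfl⟩
  rw [← hN]
  obtain ⟨-, h14b, h14c⟩ := hB14 K' E i hii C
  have h14b := h14b hne
  have hNm : ∀ e' : E', σ.ε e' ∈ N ↔ chainMap (Y.act e') C = C := by
    intro e'
    rw [hN, Subgroup.mem_inf]
    have h4 := h14c (Y.act e') (σ.ε e') (fun k => by
      rw [hiv, Y.act_spec, map_mul, map_mul, map_inv, hiv]) hC
    rw [h4]
    exact ⟨fun h => h.2, fun h => ⟨⟨e', rfl⟩, h⟩⟩
  have hNk : ∀ k : K', i k ∈ N ↔ k ∈ nrm C := by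
    intro k
    rw [hN, Subgroup.mem_inf]
    constructor
    · rintro ⟨-, h5⟩
      have h6 : i k ∈ (nrm C).map i := by
        rw [h14b]
        exact ⟨⟨k, rfl⟩, h5⟩
      obtain ⟨l, hl, hlk⟩ := Subgroup.mem_map.1 h6
      rw [← hii hlk]
      exact hl
    · intro h5
      have h6 : i k ∈ (nrm C).map i := Subgroup.mem_map_of_mem _ h5
      rw [h14b] at h6
      exact ⟨⟨Y.inc k, (hiv k).symm⟩, h6.2⟩
  have hcom : N.comap X.inc = (nrm C).map σ.j := by
    ext g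
    rw [Subgroup.mem_comap, Subgroup.mem_map]
    constructor
    · intro h
      have h5 : X.inc g ∈ σ.ε.range := by
        rw [hN] at h
        exact h.1
      obtain ⟨k, rfl⟩ := (hrg g).1 h5
      exact ⟨k, (hNk k).1 (by rw [hiv']; exact h), rfl⟩
    · rintro ⟨k, hk, rfl⟩
      rw [← hiv']
      exact (hNk k).2 hk
  obtain ⟨h13a, h13b, h13c, h13d, h13e, -⟩ := hB13 K' G p σ.j σ.j_inj (nrm C)
  have hcard : Nat.card (N.comap X.inc) = Nat.card (nrm C) := by
    rw [hcom]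
    exact (Nat.card_congr ((nrm C).equivMapOfInjective σ.j σ.j_inj).toEquiv).symm
  have hfm : ∀ (e' : E') (θ : K' → ℂ), funMap (X.act (σ.ε e')) (ext0 σ.j θ) =
      ext0 σ.j (funMap (Y.act e') θ) := fun e' θ =>
    TRK_ext σ.j σ.j_inj (Y.act e') (X.act (σ.ε e')) (fun k => hact e' k) θ
  have key : ∀ θ ∈ IrrOn (nrm C), (Y.stab C θ).map Y.proj = ⊤ ↔
      (N ⊔ X.inc.range = ⊤ ∧ ∀ e ∈ N, funMap (X.act e) (ext0 σ.j θ) = ext0 σ.j θ) := by
    intro θ hθ
    constructor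
    · intro h
      have h5 : ∀ a : A, ∃ s ∈ Y.stab C θ, Y.proj s = a := by
        intro a
        have h6 : a ∈ (Y.stab C θ).map Y.proj := by rw [h]; exact Subgroup.mem_top a
        exact Subgroup.mem_map.1 h6
      refine ⟨(SBX_surj X N).2 fun a => ?_, ?_⟩
      · obtain ⟨s, hs, hsa⟩ := h5 a
        exact ⟨σ.ε s, (hNm s).2 hs.1, by rw [σ.proj, hsa]⟩
      · intro e he
        have h6 : e ∈ σ.ε.range := by
          rw [hN] at he
          exact he.1
        obtain ⟨e', rfl⟩ := h6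
        obtain ⟨s, hs, hsa⟩ := h5 (Y.proj e')
        have h7 : Y.proj (s⁻¹ * e') = 1 := by rw [map_mul, map_inv, hsa, inv_mul_cancel]
        obtain ⟨k, hk⟩ := (Y.exact _).1 h7
        have h8 : i k ∈ N := by
          rw [hiv, hk, map_mul, map_inv]
          exact N.mul_mem (N.inv_mem ((hNm s).2 hs.1)) he
        have h9 := (hNk k).1 h8
        have h10 : funMap (Y.act (Y.inc k)) θ = θ := by
          rw [Pool.Agent.helper55.DC.ST_act_inc]
          funext x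
          have h11 := ((hIF K' (nrm C)).2 θ hθ).2.1 k⁻¹ ((nrm C).inv_mem h9) x
          show θ ((MulAut.conj k)⁻¹ x) = θ x
          rw [← map_inv, MulAut.conj_apply]
          exact h11
        have h12 : e' = s * Y.inc k := by rw [hk, mul_inv_cancel_left]
        rw [hfm, h12, map_mul, Pool.Agent.helper55.DC.ST_funMap_mul, h10, hs.2]
    · rintro ⟨h1, h2⟩
      rw [eq_top_iff]
      intro a _
      obtain ⟨n, hn, hna⟩ := (SBX_surj X N).1 h1 a
      have h6 : n ∈ σ.ε.range := by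
        rw [hN] at hn
        exact hn.1
      obtain ⟨e', rfl⟩ := h6
      refine Subgroup.mem_map.2 ⟨e', ⟨(hNm e').1 hn, ?_⟩, by rw [← σ.proj, hna]⟩
      have h7 := h2 _ hn
      rw [hfm] at h7
      exact h13d _ _ h7
  unfold fR kR cnt
  split_ifs with h
  · rw [hcard]
    congr 2
    symm
    refine Nat.card_congr (Equiv.ofBijective
      (fun θ => ⟨ext0 σ.j θ.1, ?_, ?_, θ.2.2.2.1, ?_⟩) ⟨?_, ?_⟩)
    · rw [hcom]
      exact (h13b θ.1).1 θ.2.1
    · rw [hcom]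
      exact (h13e θ.1 d).1 θ.2.2.1
    · exact ((key θ.1 θ.2.1).1 θ.2.2.2.2).2
    · intro θ θ' hθ
      apply Subtype.ext
      exact h13d _ _ (congrArg Subtype.val hθ)
    · rintro ⟨φ, hφ1, hφ2, hφ3, hφ4⟩
      have hφ1' := hφ1
      rw [hcom] at hφ1'
      obtain ⟨θ, rfl⟩ := h13c φ hφ1'
      have hθ : θ ∈ IrrOn (nrm C) := (h13b θ).2 hφ1'
      refine ⟨⟨θ, hθ, ?_, hφ3, ?_⟩, rfl⟩
      · rw [hcom] at hφ2
        exact (h13e θ d).2 hφ2
      · exact (key θ hθ).2 ⟨h, hφ4⟩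
  · symm
    apply mul_eq_zero_of_right
    rw [Nat.cast_eq_zero]
    have : IsEmpty {θ : K' → ℂ // θ ∈ IrrOn (nrm C) ∧ Defect p (nrm C) θ d ∧
        R (ext0 σ.j θ) ∧ (Y.stab C θ).map Y.proj = ⊤} := by
      refine ⟨?_⟩
      rintro ⟨θ, h1, -, -, h4⟩
      exact h ((key θ h1).1 h4).1
    exact Nat.card_of_isEmpty

end Pool.Agent.WC
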