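import Pool.Agent.helper22.WC.Spec

set_option autoImplicit false

namespace Pool.Agent.WC

open Pool.Agent.helper58.DC Pool.Agent.DI Pool.Agent.DR

theorem TRS (hSBX : SBX_stmt) (hTRK : TRK_stmt) (hA7 : A7_stmt) (hA8 : A8_stmt) (hA14 : A14_stmt) :
    TRS_stmt := by
  intro K' E' G E A _ _ _ _ _ _ _ _ _ Y X σ p _ R d hop
  obtain ⟨-, -, h3⟩ := hSBX G E A X
  obtain ⟨hrg, -, -, -⟩ := h3 K' E' Y σ
  obtain ⟨i, hi⟩ : ∃ i : K' →* E, i = X.inc.comp σ.j := ⟨_, rfl⟩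
  have hiv' : ∀ k, i k = X.inc (σ.j k) := fun k => by rw [hi]; rfl
  have hii : Function.Injective i := by
    intro k l hkl
    rw [hiv', hiv'] at hkl
    exact σ.j_inj (X.inc_injective hkl)
  have hrange : i.range = σ.ε.range ⊓ X.inc.range := by
    ext e
    rw [Subgroup.mem_inf]
    constructor
    · rintro ⟨k, rfl⟩
      rw [hiv']
      exact ⟨⟨Y.inc k, σ.inc k⟩, ⟨σ.j k, rfl⟩⟩
    · rintro ⟨h1, ⟨g, rfl⟩⟩
      obtain ⟨k, rfl⟩ := (hrg g).1 h1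
      exact ⟨k, hiv' k⟩
  have hnor : ∀ g : G, ∀ e : E, ∃ g', e * X.inc g * e⁻¹ = X.inc g' := fun g e =>
    ⟨X.act e g, (X.act_spec e g).symm⟩
  have hop2 : IsOp p (σ.ε.range ⊓ X.inc.range) ⊥ := by
    rw [← hrange]
    exact (hA14 K' E p i hii).2.1.1 hop
  have h1 := hA7 E p (σ.ε.range ⊓ X.inc.range) ⊥ σ.ε.range (fR X p R d) hop2 (by
    rintro x ⟨hx, -⟩
    rw [Subgroup.mem_normalizer_iff]
    intro y
    rw [Subgroup.mem_inf, Subgroup.mem_inf]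
    constructor
    · rintro ⟨h5, ⟨g, rfl⟩⟩
      obtain ⟨g', hg'⟩ := hnor g x
      exact ⟨σ.ε.range.mul_mem (σ.ε.range.mul_mem hx h5) (σ.ε.range.inv_mem hx), ⟨g', hg'.symm⟩⟩
    · rintro ⟨h5, ⟨g, hg⟩⟩
      refine ⟨?_, ?_⟩
      · have h7 := σ.ε.range.mul_mem (σ.ε.range.mul_mem (σ.ε.range.inv_mem hx) h5) hx
        have h8 : x⁻¹ * (x * y * x⁻¹) * x = y := by group
        rwa [h8] at h7
      · obtain ⟨g', hg'⟩ := hnor g x⁻¹
        refine ⟨g', ?_⟩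
        rw [← hg', hg]
        group)
  have h2 := hA8 K' E p i hii σ.ε.range (fR X p R d)
  rw [← h1, ← hrange, ← h2]
  unfold radS
  apply finsum_mem_congr rfl
  intro C hC
  have hC' : IsRadical p C := hC
  obtain ⟨P, hP, -⟩ := hC'.radical
  rw [hi, hTRK K' E' G E A Y X σ p R d C hC'.chain ⟨P, hP⟩]

end Pool.Agent.WC
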